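import Pool.Agent.R800.BT.Fam
import Pool.Agent.Y874.TP2.Normal
import Pool.Agent.Y468.SR.Main

/-! Removing a triple point from a code. -/

namespace Pool.Agent.R800.BT

open Pool.Agent.Y468.SR
open Pool.Agent.Y874.TP

/-- names of the crossings -/
def Cr (P : List Pass) : Set ℕ := {c | ∃ p ∈ P, p.crossing = c}

theorem exists_sign {P : List Pass} (h : WF P) :
    ∃ σ : ℕ → Bool, ∀ p ∈ P, σ p.crossing = p.isPos := by
  classical
  refine ⟨fun c => if h : ∃ p ∈ P, p.crossing = c then h.choose.isPos else true, fun p hp => ?_⟩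
  have hex : ∃ q ∈ P, q.crossing = p.crossing := ⟨p, hp, rfl⟩
  simp only
  rw [dif_pos hex]
  have hD : WellFormed [(P, 0)] := by rw [wf_iff]; simpa using h
  have hP : passes [(P, 0)] = P := by simp
  exact hD.sign_eq (p := p) (by rw [hP]; exact hp) (by rw [hP]; exact hex.choose_spec.1)
    hex.choose_spec.2

variable {P : List Pass} {m : ℕ → ℕ} {σ : ℕ → Bool} {χ : ℕ → ℕ}

theorem mt_of (hσ : ∀ p ∈ P, σ p.crossing = p.isPos) (hm : Matching P m)
    (hχ : ∀ p ∈ P, χ (m p.crossing) = χ p.crossing) : Mt (Cr P) m σ χ := by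
  rintro c ⟨p, hp, rfl⟩
  obtain ⟨q, hq, h1, h2, h3⟩ := hm p hp
  refine ⟨⟨q, hq, h1⟩, matching_invol hm hp, fun h => ?_, hχ p hp⟩
  rw [← h1, hσ q hq, hσ p hp]
  exact h3 (by rw [h1]; exact h)

theorem matching_of (hσ : ∀ p ∈ P, σ p.crossing = p.isPos) (h : Mt (Cr P) m σ χ) :
    Matching P m ∧ ∀ p ∈ P, χ (m p.crossing) = χ p.crossing := by
  refine ⟨fun p hp => ?_, fun p hp => (h _ ⟨p, hp, rfl⟩).2.2.2⟩
  obtain ⟨⟨q, hq, h1⟩, h2, h3, -⟩ := h _ ⟨p, hp, rfl⟩
  refine ⟨q, hq, h1, by rw [h1, h2], fun h4 => ?_⟩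
  rw [h1] at h4
  rw [← hσ q hq, h1, h3 h4, hσ p hp]

theorem vd_iff {G : Type} [Group G] {o u : ℕ → G} : Vd (Cr P) m o u ↔ Valid P m o u := by
  constructor
  · intro h p hp
    exact h _ ⟨p, hp, rfl⟩
  · rintro h c ⟨p, hp, rfl⟩
    exact h p hp

theorem cn_drop {G : Type} [Group G] {l L : List G} (hl : ∀ x ∈ l, x = 1) (h : CN (l ++ L)) : CN L := by
  induction l with
  | nil => exact h
  | cons x l ih =>
    rw [hl x (by simp), List.cons_append, CN.one_cons] at h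
    exact ih (fun y hy => hl y (by simp [hy])) h

theorem bv_one {G : Type} [Group G] {o u : ℕ → G} {C : Code} (h : ∀ w ∈ C, wval o u w.1 = 1) (b : ℕ) :
    ∀ x ∈ bv (vals o u C) b, x = 1 := by
  intro x hx
  unfold bv vals at hx
  obtain ⟨y, hy, rfl⟩ := List.mem_map.1 hx
  obtain ⟨w, hw, rfl⟩ := List.mem_map.1 (List.mem_filter.1 hy).1
  exact h w hw

theorem mate_code {T : Tri} {p : Pass} (hp : p ∈ passes T.code) : p.mate ∈ passes T.code := by
  rw [mem_code] at hp ⊢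
  rcases hp with rfl | rfl | rfl | rfl | rfl | rfl | rfl | rfl | rfl | rfl | rfl | rfl <;>
    simp only [mate_mate'] <;> simp

theorem nm_code {T : Tri} {c : ℕ} :
    c ∈ Nm T.a₁ T.a₂ T.b₁ T.b₂ T.c₁ T.c₂ ↔ ∃ p ∈ passes T.code, p.crossing = c := by
  constructor
  · intro h
    simp only [Nm, Set.mem_insert_iff, Set.mem_singleton_iff] at h
    simp only [mem_code]
    rcases h with rfl | rfl | rfl | rfl | rfl | rfl
    · exact ⟨T.pa₁, by simp, rfl⟩
    · exact ⟨T.pa₂, by simp, rfl⟩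
    · exact ⟨T.pb₁, by simp, rfl⟩
    · exact ⟨T.pb₂, by simp, rfl⟩
    · exact ⟨T.pc₁, by simp, rfl⟩
    · exact ⟨T.pc₂, by simp, rfl⟩
  · rintro ⟨p, hp, rfl⟩
    simp only [Nm, Set.mem_insert_iff, Set.mem_singleton_iff]
    rw [mem_code] at hp
    rcases hp with rfl | rfl | rfl | rfl | rfl | rfl | rfl | rfl | rfl | rfl | rfl | rfl <;>
      simp [Tri.pa₁, Tri.pa₂, Tri.pb₁, Tri.pb₂, Tri.pc₁, Tri.pc₂, Pass.mate]

theorem cr_diff {T : Tri} {E : Code} (h : WF (passes (T.code ++ E))) :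
    Cr (passes (T.code ++ E)) \ Nm T.a₁ T.a₂ T.b₁ T.b₂ T.c₁ T.c₂ = Cr (passes E) := by
  rw [passes_append'] at h ⊢
  ext c
  constructor
  · rintro ⟨⟨p, hp, rfl⟩, h2⟩
    rcases List.mem_append.1 hp with hp | hp
    · exact absurd (nm_code.2 ⟨p, hp, rfl⟩) h2
    · exact ⟨p, hp, rfl⟩
  · rintro ⟨p, hp, rfl⟩
    refine ⟨⟨p, by simp [hp], rfl⟩, fun h2 => ?_⟩
    obtain ⟨q, hq, h3⟩ := nm_code.1 h2
    exact h.ne_crossing hq (mate_code hq) hp h3.symm

theorem tr_wval {T : Tri} {e : Bool} (ht : T.ta = true ∧ T.tb = true ∧ T.tc = true)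
    (he : T.ei = e ∧ T.ej = e ∧ T.ek = e) {G : Type} [Group G] {o u : ℕ → G}
    (h : Tr e o u T.a₁ T.a₂ T.b₁ T.b₂ T.c₁ T.c₂) : ∀ w ∈ T.code, wval o u w.1 = 1 := by
  obtain ⟨t1, t2, t3⟩ := ht
  obtain ⟨e1, e2, e3⟩ := he
  intro w hw
  simp only [Tri.code, List.mem_cons, List.not_mem_nil, or_false] at hw
  unfold Tr at h
  rcases hw with rfl | rfl | rfl
  · simp only [Tri.wi, word4, e1]
    cases e
    · simpa [wval, val, Tri.pa₁, Tri.pa₂, Tri.pb₁, Tri.pb₂, t1, t2, mul_assoc] using h.1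
    · simpa [wval, val, Tri.pa₁, Tri.pa₂, Tri.pb₁, Tri.pb₂, t1, t2, mul_assoc] using h.1
  · simp only [Tri.wj, word4, e2]
    cases e
    · simpa [wval, val, Tri.pa₁, Tri.pa₂, Tri.pc₁, Tri.pc₂, Pass.mate, t1, t3, mul_assoc] using h.2.1
    · simpa [wval, val, Tri.pa₁, Tri.pa₂, Tri.pc₁, Tri.pc₂, Pass.mate, t1, t3, mul_assoc] using h.2.1
  · simp only [Tri.wk, word4, e3]
    cases e
    · simpa [wval, val, Tri.pb₁, Tri.pb₂, Tri.pc₁, Tri.pc₂, Pass.mate, t2, t3, mul_assoc] using h.2.2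
    · simpa [wval, val, Tri.pb₁, Tri.pb₂, Tri.pc₁, Tri.pc₂, Pass.mate, t2, t3, mul_assoc] using h.2.2

theorem names_nodup {T : Tri} (h : (passes T.code).map (fun p => (p.crossing, p.isOver)) |>.Nodup)
    (ht : T.ta = true ∧ T.tb = true ∧ T.tc = true) :
    [T.a₁, T.a₂, T.b₁, T.b₂, T.c₁, T.c₂].Nodup := by
  obtain ⟨t1, t2, t3⟩ := ht
  have h1 : [T.pa₁, T.pa₂, T.pb₁, T.pb₂, T.pc₁, T.pc₂].Subperm (passes T.code) := by
    simp only [Tri.code, passes_cons, passes_nil, List.append_nil]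
    have s1 : [T.pa₁, T.pa₂, T.pb₁, T.pb₂].Subperm T.wi := by
      refine List.Perm.subperm ?_
      unfold Tri.wi word4
      split_ifs
      · rw [List.perm_iff_count]; intro a; simp only [List.count_cons, List.count_nil]; omega
      · rw [List.perm_iff_count]; intro a; simp only [List.count_cons, List.count_nil]; omega
    have s2 : [T.pc₁, T.pc₂].Subperm T.wj := by
      have : [T.pa₁.mate, T.pa₂.mate, T.pc₁, T.pc₂].Subperm T.wj := by
        refine List.Perm.subperm ?_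
        unfold Tri.wj word4
        split_ifs
        · rw [List.perm_iff_count]; intro a; simp only [List.count_cons, List.count_nil]; omega
        · rw [List.perm_iff_count]; intro a; simp only [List.count_cons, List.count_nil]; omega
      refine List.Subperm.trans ?_ this
      exact List.Sublist.subperm (by simp)
    have s3 : ([] : List Pass).Subperm T.wk := List.nil_subperm
    have := List.Subperm.append s1 (List.Subperm.append s2 s3)
    simpa using this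
  have h2 : ([T.pa₁, T.pa₂, T.pb₁, T.pb₂, T.pc₁, T.pc₂].map
      (fun p => (p.crossing, p.isOver))).Nodup := by
    obtain ⟨l, hl, hs⟩ := h1
    exact (hl.map _).nodup ((hs.map _).nodup h)
  have h3 : [T.pa₁, T.pa₂, T.pb₁, T.pb₂, T.pc₁, T.pc₂].map (fun p => (p.crossing, p.isOver)) =
      [T.a₁, T.a₂, T.b₁, T.b₂, T.c₁, T.c₂].map (fun c => (c, true)) := by
    simp [Tri.pa₁, Tri.pa₂, Tri.pb₁, Tri.pb₂, Tri.pc₁, Tri.pc₂, t1, t2, t3]
  rw [h3] at h2
  exact List.Nodup.of_map _ h2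

/-- a triple point is removed -/
theorem remove {T : Tri} {E : Code} {e : Bool} (wf : WF (passes (T.code ++ E)))
    (hσ : ∀ p ∈ passes (T.code ++ E), σ p.crossing = p.isPos)
    (hn : NullV (T.code ++ E) m)
    (ht : T.ta = true ∧ T.tb = true ∧ T.tc = true) (he : T.ei = e ∧ T.ej = e ∧ T.ek = e)
    (hr : Rem (Cr (passes (T.code ++ E))) m σ χ e T.a₁ T.a₂ T.b₁ T.b₂ T.c₁ T.c₂) :
    ∃ m', Matching (passes E) m' ∧ NullV E m' ∧ ∀ p ∈ passes E, χ (m' p.crossing) = χ p.crossing := by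
  obtain ⟨m', h1, h2⟩ := hr
  rw [cr_diff wf] at h1 h2
  have hmem : ∀ p ∈ passes E, p ∈ passes (T.code ++ E) := by
    intro p hp; rw [passes_append']; simp [hp]
  obtain ⟨k1, k2⟩ := matching_of (fun p hp => hσ p (hmem p hp)) h1
  refine ⟨m', k1, fun G _ o u hv b => ?_, k2⟩
  obtain ⟨o', u', v1, v2, v3⟩ := h2 G o u (vd_iff.2 hv)
  have h3 := hn G o' u' (vd_iff.1 v1) b
  rw [vals_append, bv_append] at h3
  have h4 := cn_drop (bv_one (tr_wval ht he v3) b) h3
  have h5 : vals o' u' E = vals o u E := by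
    unfold vals
    refine List.map_congr_left fun C hC => ?_
    refine Prod.ext ?_ rfl
    refine wval_congr fun r hr => ?_
    have hr' : r ∈ passes E := mem_passes.2 ⟨C, hC, hr⟩
    have h6 : r.crossing ∉ Nm T.a₁ T.a₂ T.b₁ T.b₂ T.c₁ T.c₂ := by
      have : r.crossing ∈ Cr (passes E) := ⟨r, hr', rfl⟩
      rw [← cr_diff wf] at this
      exact this.2
    obtain ⟨w1, w2⟩ := v2 _ h6
    unfold val
    rw [w1, w2]
  rwa [h5] at h4

end Pool.Agent.R800.BT
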