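import Mathlib

/-! Removing names from a matching. -/

namespace Pool.Agent.R800.BT

/-- a sign-reversing involution of `S` keeping the classes `χ` -/
def Mt (S : Set ℕ) (m : ℕ → ℕ) (σ : ℕ → Bool) (χ : ℕ → ℕ) : Prop :=
  ∀ c ∈ S, m c ∈ S ∧ m (m c) = c ∧ (m c ≠ c → σ (m c) = !σ c) ∧ χ (m c) = χ c

/-- labels compatible with the matching -/
def Vd {G : Type} [Group G] (S : Set ℕ) (m : ℕ → ℕ) (o u : ℕ → G) : Prop :=
  ∀ c ∈ S, (m c = c → u c = (o c)⁻¹) ∧ (m c ≠ c → o (m c) = (o c)⁻¹ ∧ u (m c) = (u c)⁻¹)

variable {S : Set ℕ} {m : ℕ → ℕ} {σ : ℕ → Bool} {χ : ℕ → ℕ}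

theorem elim_self {a : ℕ} (h : Mt S m σ χ) (ha : a ∈ S) :
    ∃ m', Mt (S \ {a}) m' σ χ ∧ ∀ (G : Type) [Group G] (o u : ℕ → G), Vd (S \ {a}) m' o u →
      ∃ o' u' : ℕ → G, Vd S m o' u' ∧ (∀ c, c ≠ a → o' c = o c ∧ u' c = u c) ∧
        u' a = (o' a)⁻¹ := by
  classical
  refine ⟨fun c => if m c = a then c else m c, ?_, ?_⟩
  · rintro c ⟨hc, hca⟩
    have hca : c ≠ a := hca
    obtain ⟨h1, h2, h3, h4⟩ := h c hc
    by_cases h5 : m c = a
    · simp only [h5, if_true]
      refine ⟨⟨hc, hca⟩, ?_, ?_, ?_⟩ <;> simp
    · simp only [h5, if_false]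
      rw [if_neg (by rw [h2]; exact hca)]
      exact ⟨⟨h1, h5⟩, h2, h3, h4⟩
  · intro G _ o u hv
    by_cases h0 : m a = a
    · refine ⟨fun c => if c = a then 1 else o c, fun c => if c = a then 1 else u c, ?_, ?_, ?_⟩
      · intro c hc
        by_cases hca : c = a
        · subst hca
          rw [h0]
          simp
        · have h5 : m c ≠ a := fun h5 => hca (by rw [← (h c hc).2.1, h5, h0])
          have := hv c ⟨hc, hca⟩
          simp only [h5, if_false, hca] at this ⊢
          exact this
      · intro c hc
        simp [hc]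
      · simp
    · obtain ⟨k1, k2, k3, k4⟩ := h a ha
      have hd := hv (m a) ⟨k1, h0⟩
      simp only [k2, if_true] at hd
      have hd1 : u (m a) = (o (m a))⁻¹ := by simpa using hd
      refine ⟨fun c => if c = a then (o (m a))⁻¹ else o c,
        fun c => if c = a then (u (m a))⁻¹ else u c, ?_, ?_, ?_⟩
      · intro c hc
        by_cases hca : c = a
        · subst hca
          simp [h0]
        · by_cases h5 : m c = a
          · have e : c = m a := by rw [← h5, (h c hc).2.1]
            have : a ≠ c := fun h => hca h.symm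
            simp only [h5, if_true, hca, if_false]
            rw [← e]
            exact ⟨fun h => absurd h this, fun _ => ⟨rfl, rfl⟩⟩
          · have := hv c ⟨hc, hca⟩
            simp only [h5, if_false, hca] at this ⊢
            exact this
      · intro c hc
        simp [hc]
      · simp [hd1]

theorem elim_pair {a a' : ℕ} (h : Mt S m σ χ) (ha : a ∈ S) (ha' : a' ∈ S) (hne : a ≠ a')
    (hs : σ a' = !σ a) (hx : χ a' = χ a) :
    ∃ m', Mt (S \ {a, a'}) m' σ χ ∧ ∀ (G : Type) [Group G] (o u : ℕ → G),
      Vd (S \ {a, a'}) m' o u → ∃ o' u' : ℕ → G, Vd S m o' u' ∧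
        (∀ c, c ≠ a → c ≠ a' → o' c = o c ∧ u' c = u c) ∧
        o' a' = (o' a)⁻¹ ∧ u' a' = (u' a)⁻¹ := by
  classical
  obtain ⟨k1, k2, k3, k4⟩ := h a ha
  obtain ⟨l1, l2, l3, l4⟩ := h a' ha'
  have key : ∀ c, c ∈ S \ {a, a'} → c ∈ S ∧ c ≠ a ∧ c ≠ a' := by
    rintro c ⟨h1, h2⟩
    simp only [Set.mem_insert_iff, Set.mem_singleton_iff, not_or] at h2
    exact ⟨h1, h2.1, h2.2⟩
  have mem : ∀ c, c ∈ S → c ≠ a → c ≠ a' → c ∈ S \ {a, a'} := by
    intro c h1 h2 h3
    exact ⟨h1, by simp [h2, h3]⟩
  refine ⟨fun c => if m c = a then (if m a' = a' then c else m a') else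
    if m c = a' then (if m a = a then c else m a) else m c, ?_, ?_⟩
  · intro c hc0
    obtain ⟨hc, c1, c2⟩ := key c hc0
    obtain ⟨h1, h2, h3, h4⟩ := h c hc
    by_cases h5 : m c = a
    · have e : m a = c := by rw [← h5, h2]
      simp only [h5, if_true]
      by_cases h6 : m a' = a'
      · simp only [h6, if_true, h5]
        refine ⟨hc0, ?_, ?_, ?_⟩ <;> simp
      · simp only [h6, if_false]
        have h7 : m a' ≠ a := fun h7 => c2 (by rw [← e, ← h7, l2])
        rw [l2, if_neg (Ne.symm hne), if_pos rfl, if_neg (by rw [e]; exact c1)]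
        refine ⟨mem _ l1 h7 h6, e, fun _ => ?_, ?_⟩
        · rw [l3 h6, hs, Bool.not_not]
          have := k3 (by rw [e]; exact c1)
          rw [e] at this
          rw [this, Bool.not_not]
        · rw [l4, hx, ← k4, e]
    · simp only [h5, if_false]
      by_cases h8 : m c = a'
      · have e : m a' = c := by rw [← h8, h2]
        simp only [h8, if_true]
        by_cases h6 : m a = a
        · simp only [h6, if_true, h8]
          rw [if_neg (Ne.symm hne)]
          refine ⟨hc0, ?_, ?_, ?_⟩ <;> simp
        · simp only [h6, if_false]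
          have h7 : m a ≠ a' := fun h7 => c1 (by rw [← e, ← h7, k2])
          rw [k2, if_pos rfl, if_neg (by rw [e]; exact c2)]
          refine ⟨mem _ k1 h6 h7, e, fun _ => ?_, ?_⟩
          · rw [k3 h6]
            have := l3 (by rw [e]; exact c2)
            rw [e, hs, Bool.not_not] at this
            rw [this]
          · rw [k4, ← hx, ← l4, e]
      · simp only [h8, if_false]
        rw [h2, if_neg c1, if_neg c2]
        exact ⟨mem _ h1 h5 h8, rfl, h3, h4⟩
  · intro G _ o u hv
    set α : (ℕ → G) → G := fun f => if m a ≠ a ∧ m a ≠ a' then (f (m a))⁻¹ else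
      if m a' ≠ a' ∧ m a' ≠ a then f (m a') else 1 with hα
    have fact : ∀ c, c ∈ S → c ≠ a → c ≠ a' → m c = a → (m a' = a' → u c = (o c)⁻¹) ∧
        (m a' ≠ a' → o (m a') = (o c)⁻¹ ∧ u (m a') = (u c)⁻¹) := by
      intro c hc c1 c2 h5
      have e : m a = c := by rw [← h5, (h c hc).2.1]
      have := hv c (mem c hc c1 c2)
      simp only [h5, if_true] at this
      by_cases h6 : m a' = a'
      · simp only [h6, if_true] at this
        exact ⟨fun _ => by simpa using this, fun h => absurd h6 h⟩
      · simp only [h6, if_false] at this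
        refine ⟨fun h => absurd h h6, fun _ => this.2 fun h7 => ?_⟩
        have : m c = a' := by rw [← h7, l2]
        exact hne (h5.symm.trans this)
    have fact' : ∀ c, c ∈ S → c ≠ a → c ≠ a' → m c = a' → (m a = a → u c = (o c)⁻¹) ∧
        (m a ≠ a → o (m a) = (o c)⁻¹ ∧ u (m a) = (u c)⁻¹) := by
      intro c hc c1 c2 h5
      have h9 : m c ≠ a := by rw [h5]; exact Ne.symm hne
      have := hv c (mem c hc c1 c2)
      simp only [h5, if_true, if_neg (Ne.symm hne)] at this
      by_cases h6 : m a = a
      · simp only [h6, if_true] at this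
        exact ⟨fun _ => by simpa using this, fun h => absurd h6 h⟩
      · simp only [h6, if_false] at this
        refine ⟨fun h => absurd h h6, fun _ => this.2 fun h7 => ?_⟩
        have : m c = a := by rw [← h7, k2]
        exact h9 this
    refine ⟨fun c => if c = a then α o else if c = a' then (α o)⁻¹ else o c,
      fun c => if c = a then α u else if c = a' then (α u)⁻¹ else u c, ?_, ?_, ?_, ?_⟩
    · intro c hc
      by_cases c1 : c = a
      · subst c1
        simp only [if_true]
        refine ⟨fun h0 => ?_, fun h0 => ?_⟩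
        · have e1 : ∀ f : ℕ → G, α f = if m a' ≠ a' ∧ m a' ≠ c then f (m a') else 1 := by
            intro f; simp [hα, h0]
          rw [e1, e1]
          by_cases h6 : m a' = a'
          · simp [h6]
          · have h7 : m a' ≠ c := fun h7 => hne (by rw [← h0, ← h7, l2])
            simp only [h6, h7, ne_eq, not_false_eq_true, and_self, if_true]
            exact (fact' (m a') l1 h7 h6 l2).1 h0
        · rw [if_neg h0, if_neg h0]
          by_cases h7 : m c = a'
          · have h8 : m a' = c := by rw [← h7, k2]
            have e1 : ∀ f : ℕ → G, α f = 1 := by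
              intro f; simp [hα, h7, h8]
            simp [e1, h7]
          · rw [if_neg h7, if_neg h7]
            have e1 : ∀ f : ℕ → G, α f = (f (m c))⁻¹ := by
              intro f; simp [hα, h0, h7]
            simp [e1]
      · by_cases c2 : c = a'
        · subst c2
          simp only [c1, if_false, if_true]
          refine ⟨fun h0 => ?_, fun h0 => ?_⟩
          · by_cases h6 : m a = a
            · have e1 : ∀ f : ℕ → G, α f = 1 := by
                intro f; simp [hα, h6, h0]
              simp [e1]
            · have h7 : m a ≠ c := fun h7 => c1 (by rw [← h0, ← h7, k2])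
              have e1 : ∀ f : ℕ → G, α f = (f (m a))⁻¹ := by
                intro f; simp [hα, h6, h7]
              rw [e1, e1]
              have := (fact (m a) k1 h6 h7 k2).1 h0
              rw [this]
          · by_cases h7 : m c = a
            · have h8 : m a = c := by rw [← h7, l2]
              have e1 : ∀ f : ℕ → G, α f = 1 := by
                intro f; simp [hα, h7, h8]
              simp [e1, h7]
            · rw [if_neg h7, if_neg h7, if_neg h0, if_neg h0]
              by_cases h6 : m a = a
              · have e1 : ∀ f : ℕ → G, α f = f (m c) := by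
                  intro f; simp [hα, h6, h0, h7]
                simp [e1]
              · have h9 : m a ≠ c := fun h9 => h7 (by rw [← h9, k2])
                have e1 : ∀ f : ℕ → G, α f = (f (m a))⁻¹ := by
                  intro f; simp [hα, h6, h9]
                rw [e1, e1, inv_inv, inv_inv]
                have := (fact (m a) k1 h6 h9 k2).2 h0
                exact this
        · simp only [c1, c2, if_false]
          by_cases h5 : m c = a
          · have e : m a = c := by rw [← h5, (h c hc).2.1]
            have e1 : ∀ f : ℕ → G, α f = (f c)⁻¹ := by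
              intro f; simp [hα, e, c1, c2]
            rw [h5, if_pos rfl, if_pos rfl, e1, e1]
            exact ⟨fun h => absurd h.symm c1, fun _ => ⟨rfl, rfl⟩⟩
          · by_cases h8 : m c = a'
            · have e : m a' = c := by rw [← h8, (h c hc).2.1]
              rw [h8, if_neg (Ne.symm hne), if_neg (Ne.symm hne), if_pos rfl, if_pos rfl]
              refine ⟨fun h => absurd h.symm c2, fun _ => ?_⟩
              by_cases h6 : m a = a
              · have e1 : ∀ f : ℕ → G, α f = f c := by
                  intro f; simp [hα, h6, e, c1, c2]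
                rw [e1, e1]; exact ⟨rfl, rfl⟩
              · have h9 : m a ≠ a' := fun h9 => c1 (by rw [← e, ← h9, k2])
                have e1 : ∀ f : ℕ → G, α f = (f (m a))⁻¹ := by
                  intro f; simp [hα, h6, h9]
                rw [e1, e1, inv_inv, inv_inv]
                exact (fact' c hc c1 c2 h8).2 h6
            · rw [if_neg h5, if_neg h8, if_neg h5, if_neg h8]
              have := hv c (mem c hc c1 c2)
              simp only [h5, h8, if_false] at this
              exact this
    · intro c c1 c2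
      simp [c1, c2]
    · simp [Ne.symm hne]
    · simp [Ne.symm hne]

theorem elim_free {x : ℕ} (h : Mt S m σ χ) (hx : m x = x) :
    Mt (S \ {x}) m σ χ ∧ ∀ (G : Type) [Group G] (o u : ℕ → G), Vd (S \ {x}) m o u → ∀ α : G,
      Vd S m (fun c => if c = x then α else o c) (fun c => if c = x then α⁻¹ else u c) := by
  refine ⟨?_, ?_⟩
  · rintro c ⟨hc, hcx⟩
    have hcx : c ≠ x := hcx
    obtain ⟨h1, h2, h3, h4⟩ := h c hc
    refine ⟨⟨h1, fun h5 => hcx ?_⟩, h2, h3, h4⟩
    have h5 : m c = x := h5
    rw [← h2, h5, hx]
  · intro G _ o u hv α c hc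
    by_cases hcx : c = x
    · subst hcx
      simp [hx]
    · have h5 : m c ≠ x := fun h5 => hcx (by rw [← (h c hc).2.1, h5, hx])
      simp only [hcx, h5, if_false]
      exact hv c ⟨hc, hcx⟩

theorem elim_free2 {x y : ℕ} (h : Mt S m σ χ) (hx : m x = y) (hy : m y = x) (hxy : x ≠ y) :
    Mt (S \ {x, y}) m σ χ ∧ ∀ (G : Type) [Group G] (o u : ℕ → G), Vd (S \ {x, y}) m o u →
      ∀ α β : G, Vd S m (fun c => if c = x then α else if c = y then α⁻¹ else o c)
        (fun c => if c = x then β else if c = y then β⁻¹ else u c) := by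
  refine ⟨?_, ?_⟩
  · rintro c ⟨hc, hcx⟩
    simp only [Set.mem_insert_iff, Set.mem_singleton_iff, not_or] at hcx
    obtain ⟨h1, h2, h3, h4⟩ := h c hc
    refine ⟨⟨h1, fun h5 => ?_⟩, h2, h3, h4⟩
    simp only [Set.mem_insert_iff, Set.mem_singleton_iff] at h5
    rcases h5 with h5 | h5
    · exact hcx.2 (by rw [← h2, h5, hx])
    · exact hcx.1 (by rw [← h2, h5, hy])
  · intro G _ o u hv α β c hc
    by_cases c1 : c = x
    · subst c1
      simp [hx, hxy, Ne.symm hxy]
    · by_cases c2 : c = y
      · subst c2
        simp [hy, hxy, c1]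
      · have h5 : m c ≠ x := fun h5 => c2 (by rw [← (h c hc).2.1, h5, hx])
        have h6 : m c ≠ y := fun h6 => c1 (by rw [← (h c hc).2.1, h6, hy])
        simp only [c1, c2, h5, h6, if_false]
        exact hv c ⟨hc, by simp [c1, c2]⟩

end Pool.Agent.R800.BT
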