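import Pool.Agent.R800.BT.Elim

/-! Removing a triple point: the algebra. -/

namespace Pool.Agent.R800.BT

/-- the circles of the triple point have trivial labels -/
def Tr {G : Type} [Group G] (e : Bool) (o u : ℕ → G) (x x' y y' z z' : ℕ) : Prop :=
  if e = true then
    o y' * o x' * o y * o x = 1 ∧ o z' * u x' * o z * u x = 1 ∧ u z' * u y' * u z * u y = 1
  else
    o x' * o y' * o x * o y = 1 ∧ u x' * o z' * u x * o z = 1 ∧ u y' * u z' * u y * u z = 1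

/-- the names of a triple point -/
def Nm (x x' y y' z z' : ℕ) : Set ℕ := {x, x', y, y', z, z'}

/-- the triple point can be removed -/
def Rem (S : Set ℕ) (m : ℕ → ℕ) (σ : ℕ → Bool) (χ : ℕ → ℕ) (e : Bool) (x x' y y' z z' : ℕ) : Prop :=
  ∃ m', Mt (S \ Nm x x' y y' z z') m' σ χ ∧ ∀ (G : Type) [Group G] (o u : ℕ → G),
    Vd (S \ Nm x x' y y' z z') m' o u → ∃ o' u' : ℕ → G, Vd S m o' u' ∧
      (∀ c, c ∉ Nm x x' y y' z z' → o' c = o c ∧ u' c = u c) ∧ Tr e o' u' x x' y y' z z'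

/-- the data of a triple point -/
structure Dat (S : Set ℕ) (m : ℕ → ℕ) (σ : ℕ → Bool) (χ : ℕ → ℕ) (x x' y y' z z' : ℕ) : Prop where
  mt : Mt S m σ χ
  nd : [x, x', y, y', z, z'].Nodup
  mx : x ∈ S
  mx' : x' ∈ S
  my : y ∈ S
  my' : y' ∈ S
  mz : z ∈ S
  mz' : z' ∈ S
  sx : σ x' = !σ x
  sy : σ y = σ x
  sy' : σ y' = !σ x
  sz : σ z = σ x
  sz' : σ z' = !σ x
  cx : χ x' = χ x
  cy : χ y = χ x
  cy' : χ y' = χ x
  cz : χ z = χ x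
  cz' : χ z' = χ x

variable {S : Set ℕ} {m : ℕ → ℕ} {σ : ℕ → Bool} {χ : ℕ → ℕ} {e : Bool} {x x' y y' z z' : ℕ}

theorem Dat.swap (h : Dat S m σ χ x x' y y' z z') : Dat S m σ χ x' x y' y z' z where
  mt := h.mt
  nd := by
    have := h.nd
    simp only [List.nodup_cons, List.mem_cons, List.not_mem_nil, or_false, not_or,
      not_false_eq_true, List.nodup_nil, and_true] at this ⊢
    obtain ⟨⟨a1, a2, a3, a4, a5⟩, ⟨b1, b2, b3, b4⟩, ⟨c1, c2, c3⟩, ⟨d1, d2⟩, e1⟩ := this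
    exact ⟨⟨Ne.symm a1, b2, b1, b4, b3⟩, ⟨a3, a2, a5, a4⟩, ⟨Ne.symm c1, d2, d1⟩, ⟨c3, c2⟩,
      Ne.symm e1⟩
  mx := h.mx'
  mx' := h.mx
  my := h.my'
  my' := h.my
  mz := h.mz'
  mz' := h.mz
  sx := by rw [h.sx, Bool.not_not]
  sy := by rw [h.sy', h.sx]
  sy' := by rw [h.sy, h.sx, Bool.not_not]
  sz := by rw [h.sz', h.sx]
  sz' := by rw [h.sz, h.sx, Bool.not_not]
  cx := h.cx.symm
  cy := by rw [h.cy', h.cx]
  cy' := by rw [h.cy, h.cx]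
  cz := by rw [h.cz', h.cx]
  cz' := by rw [h.cz, h.cx]

theorem rot4 {G : Type} [Group G] {a b c d : G} (h : a * b * c * d = 1) : c * d * a * b = 1 := by
  have h1 : a * b = (c * d)⁻¹ := by
    rw [eq_inv_iff_mul_eq_one, ← h]; group
  rw [mul_assoc (c * d) a b, h1, mul_inv_cancel]

theorem Tr.swap {G : Type} [Group G] {o u : ℕ → G} (h : Tr e o u x' x y' y z' z) :
    Tr e o u x x' y y' z z' := by
  unfold Tr at h ⊢
  split_ifs at h ⊢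
  · exact ⟨rot4 h.1, rot4 h.2.1, rot4 h.2.2⟩
  · exact ⟨rot4 h.1, rot4 h.2.1, rot4 h.2.2⟩

theorem nm_swap : Nm x' x y' y z' z = Nm x x' y y' z z' := by
  ext c
  simp only [Nm, Set.mem_insert_iff, Set.mem_singleton_iff]
  tauto

theorem Rem.swap (h : Rem S m σ χ e x' x y' y z' z) : Rem S m σ χ e x x' y y' z z' := by
  obtain ⟨m', h1, h2⟩ := h
  rw [nm_swap] at h1
  refine ⟨m', h1, fun G _ o u hv => ?_⟩
  rw [nm_swap] at h2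
  obtain ⟨o', u', k1, k2, k3⟩ := h2 G o u hv
  exact ⟨o', u', k1, k2, k3.swap⟩

theorem fam1 (h : Dat S m σ χ x x' y y' z z') (hx : m x = x) : Rem S m σ χ e x x' y y' z z' := by
  obtain ⟨hm, nd, mx, mx', my, my', mz, mz', sx, sy, sy', sz, sz', cx, cy, cy', cz, cz'⟩ := h
  simp only [List.nodup_cons, List.mem_cons, List.not_mem_nil, or_false, not_or,
    not_false_eq_true, List.nodup_nil, and_true] at nd
  obtain ⟨⟨a1, a2, a3, a4, a5⟩, ⟨b1, b2, b3, b4⟩, ⟨c1, c2, c3⟩, ⟨d1, d2⟩, e1⟩ := nd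
  obtain ⟨h1, k1⟩ := elim_free hm hx
  obtain ⟨m2, h2, k2⟩ := elim_pair h1 (a := y) (a' := z') ⟨my, Ne.symm a2⟩ ⟨mz', Ne.symm a5⟩ c3
    (by rw [sz', sy]) (by rw [cz', cy])
  obtain ⟨m3, h3, k3⟩ := elim_pair h2 (a := y') (a' := z)
    ⟨⟨my', Ne.symm a3⟩, by simp [Ne.symm c1, d2]⟩ ⟨⟨mz, Ne.symm a4⟩, by simp [Ne.symm c2, e1]⟩ d1
    (by rw [sz, sy', Bool.not_not]) (by rw [cz, cy'])
  obtain ⟨m4, h4, k4⟩ := elim_self h3 (a := x')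
    ⟨⟨⟨mx', Ne.symm a1⟩, by simp [b1, b4]⟩, by simp [b2, b3]⟩
  have hS : (((S \ {x}) \ {y, z'}) \ {y', z}) \ {x'} = S \ Nm x x' y y' z z' := by
    ext c
    simp only [Nm, Set.mem_diff, Set.mem_insert_iff, Set.mem_singleton_iff]
    tauto
  rw [hS] at h4 k4
  refine ⟨m4, h4, fun G _ o u hv => ?_⟩
  obtain ⟨o1, u1, v1, w1, r1⟩ := k4 G o u hv
  obtain ⟨o2, u2, v2, w2, r2, r2'⟩ := k3 G o1 u1 v1
  obtain ⟨o3, u3, v3, w3, r3, r3'⟩ := k2 G o2 u2 v2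
  have f1 := w3 x' b1 b4
  have f2 := w2 x' b2 b3
  have f3 := w3 y' (Ne.symm c1) d2
  have f4 := w3 z (Ne.symm c2) e1
  have q1 : u3 x' = (o3 x')⁻¹ := by rw [f1.1, f1.2, f2.1, f2.2, r1]
  have q2 : o3 z = (o3 y')⁻¹ := by rw [f4.1, f3.1, r2]
  have q3 : u3 z = (u3 y')⁻¹ := by rw [f4.2, f3.2, r2']
  set α : G := if e = true then (o3 y' * o3 x' * o3 y)⁻¹ else (o3 y')⁻¹ * (o3 x')⁻¹ * (o3 y)⁻¹
    with hα
  refine ⟨_, _, k1 G o3 u3 v3 α, fun c hc => ?_, ?_⟩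
  · simp only [Nm, Set.mem_insert_iff, Set.mem_singleton_iff, not_or] at hc
    obtain ⟨n1, n2, n3, n4, n5, n6⟩ := hc
    simp only [if_neg n1]
    rw [(w3 c n3 n6).1, (w3 c n3 n6).2, (w2 c n4 n5).1, (w2 c n4 n5).2, (w1 c n2).1, (w1 c n2).2]
    exact ⟨rfl, rfl⟩
  · unfold Tr
    simp only [if_true, if_neg (Ne.symm a1), if_neg (Ne.symm a2), if_neg (Ne.symm a3),
      if_neg (Ne.symm a4), if_neg (Ne.symm a5), q1, q2, q3, r3, r3']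
    split_ifs with he
    · rw [hα, if_pos he]
      refine ⟨?_, ?_, ?_⟩ <;> group
    · rw [hα, if_neg he]
      refine ⟨?_, ?_, ?_⟩ <;> group

theorem fam3 (h : Dat S m σ χ x x' y y' z z') (hz : m z = z) : Rem S m σ χ e x x' y y' z z' := by
  obtain ⟨hm, nd, mx, mx', my, my', mz, mz', sx, sy, sy', sz, sz', cx, cy, cy', cz, cz'⟩ := h
  simp only [List.nodup_cons, List.mem_cons, List.not_mem_nil, or_false, not_or,
    not_false_eq_true, List.nodup_nil, and_true] at nd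
  obtain ⟨⟨a1, a2, a3, a4, a5⟩, ⟨b1, b2, b3, b4⟩, ⟨c1, c2, c3⟩, ⟨d1, d2⟩, e1⟩ := nd
  obtain ⟨h1, k1⟩ := elim_free hm hz
  obtain ⟨m2, h2, k2⟩ := elim_pair h1 (a := y) (a' := x') ⟨my, c2⟩ ⟨mx', b3⟩ (Ne.symm b1)
    (by rw [sx, sy]) (by rw [cx, cy])
  obtain ⟨m3, h3, k3⟩ := elim_pair h2 (a := y') (a' := x)
    ⟨⟨my', d1⟩, by simp [Ne.symm c1, Ne.symm b2]⟩ ⟨⟨mx, a4⟩, by simp [a2, a1]⟩ (Ne.symm a3)
    (by rw [sy', Bool.not_not]) (by rw [cy'])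
  obtain ⟨m4, h4, k4⟩ := elim_self h3 (a := z')
    ⟨⟨⟨mz', Ne.symm e1⟩, by simp [Ne.symm c3, Ne.symm b4]⟩, by simp [Ne.symm d2, Ne.symm a5]⟩
  have hS : (((S \ {z}) \ {y, x'}) \ {y', x}) \ {z'} = S \ Nm x x' y y' z z' := by
    ext c
    simp only [Nm, Set.mem_diff, Set.mem_insert_iff, Set.mem_singleton_iff]
    tauto
  rw [hS] at h4 k4
  refine ⟨m4, h4, fun G _ o u hv => ?_⟩
  obtain ⟨o1, u1, v1, w1, r1⟩ := k4 G o u hv
  obtain ⟨o2, u2, v2, w2, r2, r2'⟩ := k3 G o1 u1 v1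
  obtain ⟨o3, u3, v3, w3, r3, r3'⟩ := k2 G o2 u2 v2
  have f1 := w3 z' (Ne.symm c3) (Ne.symm b4)
  have f2 := w2 z' (Ne.symm d2) (Ne.symm a5)
  have f3 := w3 y' (Ne.symm c1) (Ne.symm b2)
  have f4 := w3 x a2 a1
  have q1 : u3 z' = (o3 z')⁻¹ := by rw [f1.1, f1.2, f2.1, f2.2, r1]
  have q2 : o3 x = (o3 y')⁻¹ := by rw [f4.1, f3.1, r2]
  have q3 : u3 x = (u3 y')⁻¹ := by rw [f4.2, f3.2, r2']
  set β : G := if e = true then (u3 y')⁻¹ * (u3 z')⁻¹ * (u3 y)⁻¹ else (u3 y' * u3 z' * u3 y)⁻¹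
    with hβ
  refine ⟨_, _, k1 G o3 u3 v3 β⁻¹, fun c hc => ?_, ?_⟩
  · simp only [Nm, Set.mem_insert_iff, Set.mem_singleton_iff, not_or] at hc
    obtain ⟨n1, n2, n3, n4, n5, n6⟩ := hc
    simp only [if_neg n5]
    rw [(w3 c n3 n2).1, (w3 c n3 n2).2, (w2 c n4 n1).1, (w2 c n4 n1).2, (w1 c n6).1, (w1 c n6).2]
    exact ⟨rfl, rfl⟩
  · unfold Tr
    simp only [if_true, if_neg a4, if_neg b3, if_neg c2, if_neg d1, if_neg (Ne.symm e1), q2, q3,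
      r3, r3', inv_inv]
    split_ifs with he
    · rw [hβ, if_pos he, q1]
      refine ⟨?_, ?_, ?_⟩ <;> group
    · rw [hβ, if_neg he, q1]
      refine ⟨?_, ?_, ?_⟩ <;> group

theorem fam5 (h : Dat S m σ χ x x' y y' z z') (hx : m x = y') :
    Rem S m σ χ e x x' y y' z z' := by
  obtain ⟨hm, nd, mx, mx', my, my', mz, mz', sx, sy, sy', sz, sz', cx, cy, cy', cz, cz'⟩ := h
  simp only [List.nodup_cons, List.mem_cons, List.not_mem_nil, or_false, not_or,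
    not_false_eq_true, List.nodup_nil, and_true] at nd
  obtain ⟨⟨a1, a2, a3, a4, a5⟩, ⟨b1, b2, b3, b4⟩, ⟨c1, c2, c3⟩, ⟨d1, d2⟩, e1⟩ := nd
  have hy : m y' = x := by rw [← hx, (hm x mx).2.1]
  obtain ⟨h1, k1⟩ := elim_free2 hm hx hy a3
  obtain ⟨m2, h2, k2⟩ := elim_pair h1 (a := y) (a' := x') ⟨my, by simp [Ne.symm a2, c1]⟩
    ⟨mx', by simp [Ne.symm a1, b2]⟩ (Ne.symm b1) (by rw [sx, sy]) (by rw [cx, cy])
  obtain ⟨m3, h3, k3⟩ := elim_self h2 (a := z)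
    ⟨⟨mz, by simp [Ne.symm a4, Ne.symm d1]⟩, by simp [Ne.symm c2, Ne.symm b3]⟩
  obtain ⟨m4, h4, k4⟩ := elim_self h3 (a := z')
    ⟨⟨⟨mz', by simp [Ne.symm a5, Ne.symm d2]⟩, by simp [Ne.symm c3, Ne.symm b4]⟩, by
      simp [Ne.symm e1]⟩
  have hS : (((S \ {x, y'}) \ {y, x'}) \ {z}) \ {z'} = S \ Nm x x' y y' z z' := by
    ext c
    simp only [Nm, Set.mem_diff, Set.mem_insert_iff, Set.mem_singleton_iff]
    tauto
  rw [hS] at h4 k4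
  refine ⟨m4, h4, fun G _ o u hv => ?_⟩
  obtain ⟨o1, u1, v1, w1, r1⟩ := k4 G o u hv
  obtain ⟨o2, u2, v2, w2, r2⟩ := k3 G o1 u1 v1
  obtain ⟨o3, u3, v3, w3, r3, r3'⟩ := k2 G o2 u2 v2
  have f1 := w3 z' (Ne.symm c3) (Ne.symm b4)
  have f2 := w2 z' (Ne.symm e1)
  have f3 := w3 z (Ne.symm c2) (Ne.symm b3)
  have q1 : u3 z' = (o3 z')⁻¹ := by rw [f1.1, f1.2, f2.1, f2.2, r1]
  have q2 : u3 z = (o3 z)⁻¹ := by rw [f3.1, f3.2, r2]
  set β : G := if e = true then (o3 z' * u3 x' * o3 z)⁻¹ else (o3 z')⁻¹ * (u3 x')⁻¹ * (o3 z)⁻¹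
    with hβ
  refine ⟨_, _, k1 G o3 u3 v3 1 β, fun c hc => ?_, ?_⟩
  · simp only [Nm, Set.mem_insert_iff, Set.mem_singleton_iff, not_or] at hc
    obtain ⟨n1, n2, n3, n4, n5, n6⟩ := hc
    simp only [if_neg n1, if_neg n4]
    rw [(w3 c n3 n2).1, (w3 c n3 n2).2, (w2 c n5).1, (w2 c n5).2, (w1 c n6).1, (w1 c n6).2]
    exact ⟨rfl, rfl⟩
  · unfold Tr
    simp only [if_true, if_neg (Ne.symm a1), if_neg (Ne.symm a2), if_neg (Ne.symm a3),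
      if_neg (Ne.symm a4), if_neg (Ne.symm a5), if_neg b2, if_neg c1, if_neg (Ne.symm d1),
      if_neg (Ne.symm d2), q1, q2, inv_one]
    have r4 : o3 y = (o3 x')⁻¹ := by rw [r3, inv_inv]
    have r5 : u3 y = (u3 x')⁻¹ := by rw [r3', inv_inv]
    rw [r4, r5]
    split_ifs with he
    · rw [hβ, if_pos he]
      refine ⟨?_, ?_, ?_⟩ <;> group
    · rw [hβ, if_neg he]
      refine ⟨?_, ?_, ?_⟩ <;> group

theorem fam7 (h : Dat S m σ χ x x' y y' z z') (hy : m y = z') :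
    Rem S m σ χ e x x' y y' z z' := by
  obtain ⟨hm, nd, mx, mx', my, my', mz, mz', sx, sy, sy', sz, sz', cx, cy, cy', cz, cz'⟩ := h
  simp only [List.nodup_cons, List.mem_cons, List.not_mem_nil, or_false, not_or,
    not_false_eq_true, List.nodup_nil, and_true] at nd
  obtain ⟨⟨a1, a2, a3, a4, a5⟩, ⟨b1, b2, b3, b4⟩, ⟨c1, c2, c3⟩, ⟨d1, d2⟩, e1⟩ := nd
  have hz : m z' = y := by rw [← hy, (hm y my).2.1]
  obtain ⟨h1, k1⟩ := elim_free2 hm hy hz c3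
  obtain ⟨m2, h2, k2⟩ := elim_pair h1 (a := y') (a' := z) ⟨my', by simp [Ne.symm c1, d2]⟩
    ⟨mz, by simp [Ne.symm c2, e1]⟩ d1 (by rw [sz, sy', Bool.not_not]) (by rw [cz, cy'])
  obtain ⟨m3, h3, k3⟩ := elim_self h2 (a := x)
    ⟨⟨mx, by simp [a2, a5]⟩, by simp [a3, a4]⟩
  obtain ⟨m4, h4, k4⟩ := elim_self h3 (a := x')
    ⟨⟨⟨mx', by simp [b1, b4]⟩, by simp [b2, b3]⟩, by simp [Ne.symm a1]⟩
  have hS : (((S \ {y, z'}) \ {y', z}) \ {x}) \ {x'} = S \ Nm x x' y y' z z' := by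
    ext c
    simp only [Nm, Set.mem_diff, Set.mem_insert_iff, Set.mem_singleton_iff]
    tauto
  rw [hS] at h4 k4
  refine ⟨m4, h4, fun G _ o u hv => ?_⟩
  obtain ⟨o1, u1, v1, w1, r1⟩ := k4 G o u hv
  obtain ⟨o2, u2, v2, w2, r2⟩ := k3 G o1 u1 v1
  obtain ⟨o3, u3, v3, w3, r3, r3'⟩ := k2 G o2 u2 v2
  have f1 := w3 x' b2 b3
  have f2 := w2 x' (Ne.symm a1)
  have f3 := w3 x a3 a4
  have q1 : u3 x' = (o3 x')⁻¹ := by rw [f1.1, f1.2, f2.1, f2.2, r1]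
  have q2 : u3 x = (o3 x)⁻¹ := by rw [f3.1, f3.2, r2]
  set α : G := if e = true then (o3 x')⁻¹ * (o3 y')⁻¹ * (o3 x)⁻¹ else (o3 x' * o3 y' * o3 x)⁻¹
    with hα
  refine ⟨_, _, k1 G o3 u3 v3 α 1, fun c hc => ?_, ?_⟩
  · simp only [Nm, Set.mem_insert_iff, Set.mem_singleton_iff, not_or] at hc
    obtain ⟨n1, n2, n3, n4, n5, n6⟩ := hc
    simp only [if_neg n3, if_neg n6]
    rw [(w3 c n4 n5).1, (w3 c n4 n5).2, (w2 c n1).1, (w2 c n1).2, (w1 c n2).1, (w1 c n2).2]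
    exact ⟨rfl, rfl⟩
  · unfold Tr
    simp only [if_true, if_neg a2, if_neg a5, if_neg b1, if_neg b4, if_neg (Ne.symm c1),
      if_neg (Ne.symm c2), if_neg (Ne.symm c3), if_neg d2, if_neg e1, q1, q2, r3, r3', inv_one]
    split_ifs with he
    · rw [hα, if_pos he]
      refine ⟨?_, ?_, ?_⟩ <;> group
    · rw [hα, if_neg he]
      refine ⟨?_, ?_, ?_⟩ <;> group

end Pool.Agent.R800.BT
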