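import Pool.Agent.R800.BT.Rec
import Pool.Agent.R800.TP.Lift
import Pool.Agent.Y874.TP4.Final

/-! One triple point in each component of the set of double points. -/

namespace Pool.Agent.R800.BT

open Pool.Agent.Y468.SR
open Pool.Agent.Y874.TP hiding S_REID S_REN S_THREE S_OUT S_CUT S_JUNC CStep CReid CM InvM InvC Inv3
open Pool.Agent.Y874.TP2
open Pool.Agent.Y874.TP2.T3
open Pool.Agent.R800.TP (TMovie tmovie_inv' tmovie_classical)

theorem tprs_form {T : Tri} (ht : Hts T) (h1 : colour T.a₁ % 2 = 1) (h2 : colour T.c₁ % 2 = 1) :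
    tprs T = [s((colour T.a₁, true), (colour T.b₁, true)),
      s((colour T.a₁, false), (colour T.c₁, true)),
      s((colour T.b₁, colour T.b₁ % 2 == 0), (colour T.c₁, false))] := by
  obtain ⟨t1, t2, t3⟩ := ht
  have e1 : (colour T.a₁ % 2 == 0) = false := by rw [h1]; rfl
  have e2 : (colour T.c₁ % 2 == 0) = false := by rw [h2]; rfl
  simp only [tprs, kap, lc, Tri.pa₁, Tri.pb₁, Tri.pc₁, Pass.mate, t1, t2, t3, Bool.true_or,
    Bool.not_true, Bool.false_or, e1, e2]

/-- the colours of the curves through a triple point -/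
structure Cols (κ : ℕ) (T : Tri) : Prop where
  ht : Hts T
  a : colour T.a₁ = 8 * κ + 1
  b : colour T.b₁ = 8 * κ + 3 ∨ colour T.b₁ = 8 * κ + 4
  c : colour T.c₁ = 8 * κ + 1 ∨ colour T.c₁ = 8 * κ + 5

theorem Cols.form {κ : ℕ} {T : Tri} (h : Cols κ T) :
    tprs T = [s((colour T.a₁, true), (colour T.b₁, true)),
      s((colour T.a₁, false), (colour T.c₁, true)),
      s((colour T.b₁, colour T.b₁ % 2 == 0), (colour T.c₁, false))] :=
  tprs_form h.ht (by rw [h.a]; omega) (by rcases h.c with h | h <;> rw [h] <;> omega)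

theorem Cols.dg {κ : ℕ} {T : Tri} (h : Cols κ T) : ∀ e ∈ tprs T, ¬e.IsDiag := by
  intro e he
  rw [h.form] at he
  have ha := h.a
  have hb := h.b
  have hc := h.c
  simp only [List.mem_cons, List.not_mem_nil, or_false] at he
  rcases he with rfl | rfl | rfl
  · rw [Sym2.mk_isDiag_iff]
    intro e
    have := congrArg Prod.fst e
    simp only at this
    omega
  · rw [Sym2.mk_isDiag_iff]
    intro e
    have := congrArg Prod.snd e
    simp at this
  · rw [Sym2.mk_isDiag_iff]
    intro e
    have := congrArg Prod.fst e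
    simp only at this
    omega

theorem Cols.nd {κ : ℕ} {T : Tri} (h : Cols κ T) : (tprs T).Nodup := by
  rw [h.form]
  have ha := h.a
  have hb := h.b
  have hc := h.c
  simp only [List.nodup_cons, List.mem_cons, List.not_mem_nil, or_false, not_or,
    not_false_eq_true, List.nodup_nil, and_true]
  refine ⟨⟨?_, ?_⟩, ?_⟩
  · rw [Sym2.eq_iff]
    rintro (⟨e1, e2⟩ | ⟨e1, e2⟩)
    · simp at e1
    · have := congrArg Prod.fst e2
      simp only at this
      omega
  · rw [Sym2.eq_iff]
    rintro (⟨e1, e2⟩ | ⟨e1, e2⟩)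
    · simp at e2
    · simp at e1
  · rw [Sym2.eq_iff]
    rintro (⟨e1, e2⟩ | ⟨e1, e2⟩)
    · simp at e2
    · have := congrArg Prod.fst e2
      simp only at this
      omega

theorem Cols.block {κ : ℕ} {T : Tri} (h : Cols κ T) : ∀ e ∈ tprs T, ∀ x ∈ e, x.1 / 8 = κ := by
  intro e he x hx
  rw [h.form] at he
  have ha := h.a
  have hb := h.b
  have hc := h.c
  simp only [List.mem_cons, List.not_mem_nil, or_false] at he
  rcases he with rfl | rfl | rfl <;> rw [Sym2.mem_iff] at hx <;> rcases hx with rfl | rfl <;>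
    simp only <;> omega

theorem Cols.disj {κ κ' : ℕ} {T T' : Tri} (h : Cols κ T) (h' : Cols κ' T') (hne : κ ≠ κ') :
    List.Disjoint (tprs T) (tprs T') := by
  intro e he he'
  have h1 := h.block e he
  have h2 := h'.block e he'
  induction e using Sym2.ind with
  | _ x y =>
    exact hne ((h1 x (Sym2.mem_mk_left x y)).symm.trans (h2 x (Sym2.mem_mk_left x y)))

section
variable {D : Code} {Ts : List Tri} {χ m : ℕ → ℕ} (h : Iv D Ts χ m) (hb : ∀ T ∈ Ts, ¬Bad T m)
include h hb

theorem good_inv3 : Inv3 (renamed (fun c => Nat.pair (nc Ts m χ c) c) D)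
    (Ts.map (Tri.rename fun c => Nat.pair (nc Ts m χ c) c)) := by
  set f : ℕ → ℕ := fun c => Nat.pair (nc Ts m χ c) c with hf
  have hg : ∀ c, (Nat.unpair (f c)).2 = c := fun c => by rw [hf]; simp
  have hcol : ∀ c, colour (f c) = nc Ts m χ c := fun c => by rw [hf, colour]; simp
  have hinj : ∀ a b, f a = f b → a = b := fun a b h => by rw [← hg a, ← hg b, h]
  have hE : renamed f D ++ TC (Ts.map (Tri.rename f)) = renamed f (D ++ TC Ts) := by
    rw [renamed_append, TC_rename]
  have hcols : ∀ T ∈ Ts, Cols (χ T.a₁) (T.rename f) := by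
    intro T hT
    refine ⟨(h.ok T hT).2.1, ?_, ?_, ?_⟩
    · exact (hcol T.a₁).trans (nc_A h hb hT (by simp))
    · have e : colour (T.rename f).b₁ = _ := (hcol T.b₁).trans (nc_B h hb hT (by simp))
      rw [e]
      split_ifs <;> simp
    · have e : colour (T.rename f).c₁ = _ := (hcol T.c₁).trans (nc_C h hb hT (by simp))
      rw [e]
      split_ifs <;> simp
  refine ⟨?_, ?_, ?_, ?_, ?_⟩
  · rw [hE, passes_renamed]
    exact h.sv.wf.ren fun p _ q _ e => hinj _ _ e
  · intro T' hT'
    obtain ⟨T, hT, rfl⟩ := List.mem_map.1 hT'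
    refine ⟨(h.ok T hT).1, ?_, ?_, ?_⟩
    · exact (hcol T.a₂).trans ((nc_A h hb hT (by simp)).trans
        ((nc_A h hb hT (by simp)).symm.trans (hcol T.a₁).symm))
    · exact (hcol T.b₂).trans ((nc_B h hb hT (by simp)).trans
        ((nc_B h hb hT (by simp)).symm.trans (hcol T.b₁).symm))
    · exact (hcol T.c₂).trans ((nc_C h hb hT (by simp)).trans
        ((nc_C h hb hT (by simp)).symm.trans (hcol T.c₁).symm))
  · intro e he
    obtain ⟨T', hT', he⟩ := List.mem_flatMap.1 he
    obtain ⟨T, hT, rfl⟩ := List.mem_map.1 hT'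
    exact (hcols T hT).dg e he
  · rw [List.nodup_flatMap]
    constructor
    · intro T' hT'
      obtain ⟨T, hT, rfl⟩ := List.mem_map.1 hT'
      exact (hcols T hT).nd
    · rw [List.pairwise_map]
      have h1 : Ts.Pairwise fun a b => χ a.a₁ ≠ χ b.a₁ := by
        have := h.nd
        rw [List.Nodup, List.pairwise_map] at this
        exact this
      refine List.Pairwise.imp_of_mem ?_ h1
      intro a b ha hb' hne
      exact (hcols a ha).disj (hcols b hb') hne
  · rw [hE]
    obtain ⟨k1, k2⟩ := inv_renamed (f := f) (g := fun c => (Nat.unpair c).2) hg h.sv.mt h.sv.nv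
    refine ⟨_, k1, ?_, k2⟩
    intro p' hp'
    obtain ⟨p, hp, rfl⟩ := mem_renamed.1 hp'
    simp only [hg]
    rw [hcol, hcol, nc_m h ⟨p, hp, rfl⟩]
    refine ⟨rfl, fun h1 h2 => h1 ?_⟩
    exact nc_even h hb (hinj _ _ h2)

/-- diagrams with one triple point of each class, none of which can be removed -/
theorem good_movie (hD : Classical D) (hn : (D.map Prod.snd).Nodup) : Movie true false D [] := by
  have hinj : Function.Injective fun c => Nat.pair (nc Ts m χ c) c := by
    intro a b h
    exact (Nat.pair_eq_pair.1 h).2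
  have hD' := classical_renamed hinj hD
  refine Movie.head hD hD' (Step.rename _ D fun p _ q _ h => hinj h) ?_
  refine movie_of_inv3 RD.reid CT.cut OT.out_inv Pool.Agent.Y333.TP.mid_planar
    Pool.Agent.Y514.TP.out_planar Pool.Agent.Y210.TP.move junc _ _ _ _ rfl rfl hD' ?_
    (good_inv3 h hb)
  have : (renamed (fun c => Nat.pair (nc Ts m χ c) c) D).map Prod.snd = D.map Prod.snd := by
    simp [renamed]
  rw [this]
  exact hn

end

/-- diagrams with one triple point of each class -/
theorem iv_movie {D : Code} {Ts : List Tri} {χ m : ℕ → ℕ} (h : Iv D Ts χ m) (hD : Classical D)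
    (hn : (D.map Prod.snd).Nodup) : Movie true false D [] := by
  obtain ⟨Ts', m', h1, h2⟩ := exists_good _ Ts m rfl h
  exact good_movie h1 h2 hD hn

/-- discs with one triple point on each component of the set of double points meeting the link can be
replaced by ribbon discs -/
theorem ribbon_of_components {hd : Bool} {Z : ℕ → Prop} {D : Code} {T : List (ℕ × ℕ × ℕ)}
    (h : TMovie hd Z D T) (hZ : ∀ p ∈ passes D, ¬Z (colour p.crossing))
    (hn : (D.map Prod.snd).Nodup) (hc : ∀ t ∈ T, t.2.1 = t.1 ∧ t.2.2 = t.1)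
    (ho : (T.map Prod.fst).Nodup) : Movie true false D [] := by
  obtain ⟨Ts, hI, hs⟩ := tmovie_inv' RD.reid RN.ren TH.three h hZ
  obtain ⟨m, hm⟩ := hI.inv
  have hD := tmovie_classical h
  have key : ∀ S ∈ Ts, Hts S ∧ colour S.b₁ = colour S.a₁ ∧ colour S.c₁ = colour S.a₁ := by
    intro S hS
    have h1 : sig S ∈ T.map fun t => (t, (true, true, true)) := by
      rw [← hs]; exact List.mem_map_of_mem hS
    obtain ⟨t, ht, h2⟩ := List.mem_map.1 h1
    obtain ⟨c1, c2⟩ := hc t ht
    simp only [sig, Prod.ext_iff] at h2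
    obtain ⟨⟨h3, h4, h5⟩, h6, h7, h8⟩ := h2
    refine ⟨⟨h6.symm, h7.symm, h8.symm⟩, ?_, ?_⟩
    · rw [← h4, ← h3, c1]
    · rw [← h5, ← h3, c2]
  have hfst : Ts.map (fun S => colour S.a₁) = T.map Prod.fst := by
    have h1 : (Ts.map sig).map (fun x => x.1.1) = (T.map fun t => (t, (true, true, true))).map
        (fun x => x.1.1) := by rw [hs]
    rw [List.map_map, List.map_map] at h1
    exact h1
  refine iv_movie (χ := colour) (m := m) ⟨⟨hI.wf, hm.1, hm.2.2, fun p hp => (hm.2.1 p hp).1⟩,
    fun S hS => ⟨(hI.ok S hS).1, (key S hS).1, ?_⟩, ?_⟩ hD hn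
  · obtain ⟨k1, k2, k3⟩ := (hI.ok S hS).2
    obtain ⟨-, k4, k5⟩ := key S hS
    have hall : ∀ c ∈ S.names, colour c = colour S.a₁ := by
      intro c hc
      simp only [Tri.names, List.mem_cons, List.not_mem_nil, or_false] at hc
      rcases hc with rfl | rfl | rfl | rfl | rfl | rfl
      · rfl
      · exact k1
      · exact k4
      · rw [k2, k4]
      · exact k5
      · rw [k3, k5]
    intro c hc d hd
    rw [hall c hc, hall d hd]
  · rw [hfst]
    exact ho

end Pool.Agent.R800.BT
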