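import Pool.Agent.R800.BT.Ren
import Pool.Agent.Y874.TP2.Final

/-! New colours. -/

namespace Pool.Agent.R800.BT

open Pool.Agent.Y468.SR
open Pool.Agent.Y874.TP hiding S_REID S_REN S_THREE S_OUT S_CUT S_JUNC CStep CReid CM InvM InvC Inv3
open Pool.Agent.Y874.TP2

def onA (Ts : List Tri) (m : ℕ → ℕ) (c : ℕ) : Prop :=
  ∃ T ∈ Ts, c ∈ [T.a₁, T.a₂] ∨ m c ∈ [T.a₁, T.a₂]

def onB (Ts : List Tri) (m : ℕ → ℕ) (c : ℕ) : Prop :=
  ∃ T ∈ Ts, c ∈ [T.b₁, T.b₂] ∨ m c ∈ [T.b₁, T.b₂]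

def onC (Ts : List Tri) (m : ℕ → ℕ) (c : ℕ) : Prop :=
  ∃ T ∈ Ts, c ∈ [T.c₁, T.c₂] ∨ m c ∈ [T.c₁, T.c₂]

def sB (Ts : List Tri) (m χ : ℕ → ℕ) (c : ℕ) : Prop :=
  ∃ T ∈ Ts, χ T.a₁ = χ c ∧ ∃ b ∈ [T.b₁, T.b₂], m b = b

def aC (Ts : List Tri) (m χ : ℕ → ℕ) (c : ℕ) : Prop :=
  ∃ T ∈ Ts, χ T.a₁ = χ c ∧ ∃ a ∈ [T.a₁, T.a₂], m a ∈ [T.c₁, T.c₂]

open Classical in
/-- the new colour -/
noncomputable def nc (Ts : List Tri) (m χ : ℕ → ℕ) (c : ℕ) : ℕ :=
  if onA Ts m c then 8 * χ c + 1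
  else if onB Ts m c then (if sB Ts m χ c then 8 * χ c + 4 else 8 * χ c + 3)
  else if onC Ts m c then (if aC Ts m χ c then 8 * χ c + 1 else 8 * χ c + 5)
  else 0

section
variable {D : Code} {Ts : List Tri} {χ m : ℕ → ℕ} (h : Iv D Ts χ m)
include h

theorem Iv.inv_inv {c : ℕ} (hc : c ∈ Cr (passes (D ++ TC Ts))) : m (m c) = c ∧ χ (m c) = χ c := by
  obtain ⟨p, hp, rfl⟩ := hc
  exact ⟨matching_invol h.sv.mt hp, h.sv.cm p hp⟩

theorem Iv.cr {T : Tri} (hT : T ∈ Ts) {c : ℕ} (hc : c ∈ T.names) :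
    c ∈ Cr (passes (D ++ TC Ts)) := by
  obtain ⟨p, hp, h1⟩ := exists_pass hT hc
  exact ⟨p, by rw [passes_append']; simp [hp], h1⟩

theorem Iv.cls {T : Tri} (hT : T ∈ Ts) {c : ℕ} (hc : c ∈ T.names) : χ c = χ T.a₁ :=
  (h.ok T hT).2.2 c hc _ (by simp [Tri.names])

theorem Iv.uniq {T T' : Tri} (hT : T ∈ Ts) (hT' : T' ∈ Ts) (e : χ T'.a₁ = χ T.a₁) : T' = T :=
  List.inj_on_of_nodup_map h.nd hT' hT e

theorem Iv.names {T : Tri} (hT : T ∈ Ts) : [T.a₁, T.a₂, T.b₁, T.b₂, T.c₁, T.c₂].Nodup := by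
  refine names_nodup ?_ (h.ok T hT).2.1
  obtain ⟨l₁, l₂, rfl⟩ := List.append_of_mem hT
  have := (h.sv.perm perm_TC).wf.2
  rw [passes_append', List.map_append] at this
  exact (List.nodup_append.1 this).1

theorem nc_m {c : ℕ} (hc : c ∈ Cr (passes (D ++ TC Ts))) : nc Ts m χ (m c) = nc Ts m χ c := by
  obtain ⟨e1, e2⟩ := h.inv_inv hc
  have a : onA Ts m (m c) ↔ onA Ts m c := by
    unfold onA; rw [e1]
    exact exists_congr fun T => and_congr_right fun _ => or_comm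
  have b : onB Ts m (m c) ↔ onB Ts m c := by
    unfold onB; rw [e1]
    exact exists_congr fun T => and_congr_right fun _ => or_comm
  have c' : onC Ts m (m c) ↔ onC Ts m c := by
    unfold onC; rw [e1]
    exact exists_congr fun T => and_congr_right fun _ => or_comm
  have d : sB Ts m χ (m c) ↔ sB Ts m χ c := by
    unfold sB; rw [e2]
  have e : aC Ts m χ (m c) ↔ aC Ts m χ c := by
    unfold aC; rw [e2]
  unfold nc
  rw [propext a, propext b, propext c', propext d, propext e, e2]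

variable (hb : ∀ T ∈ Ts, ¬Bad T m)
include hb

theorem nc_even {c : ℕ} (hc : m c = c) : nc Ts m χ c % 2 = 0 := by
  have h1 : ¬onA Ts m c := by
    rintro ⟨T, hT, h1⟩
    rw [hc, or_self] at h1
    exact hb T hT (Or.inl ⟨c, h1, Or.inl hc⟩)
  have h3 : ¬onC Ts m c := by
    rintro ⟨T, hT, h1⟩
    rw [hc, or_self] at h1
    exact hb T hT (Or.inr ⟨c, h1, Or.inl hc⟩)
  unfold nc
  rw [if_neg h1, if_neg h3]
  by_cases h2 : onB Ts m c
  · have h4 : sB Ts m χ c := by
      obtain ⟨T, hT, h1⟩ := h2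
      rw [hc, or_self] at h1
      refine ⟨T, hT, ?_, c, h1, hc⟩
      refine (h.cls hT ?_).symm
      simp only [Tri.names, List.mem_cons, List.not_mem_nil, or_false] at h1 ⊢
      tauto
    rw [if_pos h2, if_pos h4]
    omega
  · rw [if_neg h2]

theorem nc_A {T : Tri} (hT : T ∈ Ts) {c : ℕ} (hc : c ∈ [T.a₁, T.a₂]) :
    nc Ts m χ c = 8 * χ T.a₁ + 1 := by
  have h1 : onA Ts m c := ⟨T, hT, Or.inl hc⟩
  unfold nc
  rw [if_pos h1, h.cls hT]
  simp only [Tri.names, List.mem_cons, List.not_mem_nil, or_false] at hc ⊢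
  tauto

theorem nc_B {T : Tri} (hT : T ∈ Ts) {c : ℕ} (hc : c ∈ [T.b₁, T.b₂]) :
    nc Ts m χ c = open Classical in if (∃ b ∈ [T.b₁, T.b₂], m b = b) then 8 * χ T.a₁ + 4
      else 8 * χ T.a₁ + 3 := by
  have hn : c ∈ T.names := by
    simp only [Tri.names, List.mem_cons, List.not_mem_nil, or_false] at hc ⊢
    tauto
  have hcl := h.cls hT hn
  obtain ⟨e1, e2⟩ := h.inv_inv (h.cr hT hn)
  have h1 : ¬onA Ts m c := by
    rintro ⟨T', hT', h1 | h1⟩
    · have hn' : c ∈ T'.names := by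
        simp only [Tri.names, List.mem_cons, List.not_mem_nil, or_false] at h1 ⊢
        tauto
      have : T' = T := h.uniq hT hT' (by rw [← h.cls hT' hn', hcl])
      subst this
      have := h.names hT
      simp only [List.nodup_cons, List.mem_cons, List.not_mem_nil, or_false, not_or] at this h1 hc
      grind
    · have hn' : m c ∈ T'.names := by
        simp only [Tri.names, List.mem_cons, List.not_mem_nil, or_false] at h1 ⊢
        tauto
      have : T' = T := h.uniq hT hT' (by rw [← h.cls hT' hn', e2, hcl])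
      subst this
      refine hb T' hT (Or.inl ⟨m c, h1, Or.inr ?_⟩)
      rw [e1]; exact hc
  have h2 : onB Ts m c := ⟨T, hT, Or.inl hc⟩
  have h3 : sB Ts m χ c ↔ ∃ b ∈ [T.b₁, T.b₂], m b = b := by
    constructor
    · rintro ⟨T', hT', h3, h4⟩
      have : T' = T := h.uniq hT hT' (by rw [h3, hcl])
      subst this
      exact h4
    · intro h4
      exact ⟨T, hT, hcl.symm, h4⟩
  unfold nc
  rw [if_neg h1, if_pos h2, hcl]
  simp only [h3]

theorem nc_C {T : Tri} (hT : T ∈ Ts) {c : ℕ} (hc : c ∈ [T.c₁, T.c₂]) :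
    nc Ts m χ c = open Classical in if (∃ a ∈ [T.a₁, T.a₂], m a ∈ [T.c₁, T.c₂]) then
      8 * χ T.a₁ + 1 else 8 * χ T.a₁ + 5 := by
  have hn : c ∈ T.names := by
    simp only [Tri.names, List.mem_cons, List.not_mem_nil, or_false] at hc ⊢
    tauto
  have hcl := h.cls hT hn
  obtain ⟨e1, e2⟩ := h.inv_inv (h.cr hT hn)
  have h1 : onA Ts m c → m c ∈ [T.a₁, T.a₂] := by
    rintro ⟨T', hT', h1 | h1⟩
    · have hn' : c ∈ T'.names := by
        simp only [Tri.names, List.mem_cons, List.not_mem_nil, or_false] at h1 ⊢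
        tauto
      have : T' = T := h.uniq hT hT' (by rw [← h.cls hT' hn', hcl])
      subst this
      have := h.names hT
      simp only [List.nodup_cons, List.mem_cons, List.not_mem_nil, or_false, not_or] at this h1 hc
      exfalso
      grind
    · have hn' : m c ∈ T'.names := by
        simp only [Tri.names, List.mem_cons, List.not_mem_nil, or_false] at h1 ⊢
        tauto
      have : T' = T := h.uniq hT hT' (by rw [← h.cls hT' hn', e2, hcl])
      subst this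
      exact h1
  have h2 : ¬onB Ts m c := by
    rintro ⟨T', hT', k1 | k1⟩
    · have hn' : c ∈ T'.names := by
        simp only [Tri.names, List.mem_cons, List.not_mem_nil, or_false] at k1 ⊢
        tauto
      have : T' = T := h.uniq hT hT' (by rw [← h.cls hT' hn', hcl])
      subst this
      have := h.names hT
      simp only [List.nodup_cons, List.mem_cons, List.not_mem_nil, or_false, not_or] at this k1 hc
      grind
    · have hn' : m c ∈ T'.names := by
        simp only [Tri.names, List.mem_cons, List.not_mem_nil, or_false] at k1 ⊢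
        tauto
      have : T' = T := h.uniq hT hT' (by rw [← h.cls hT' hn', e2, hcl])
      subst this
      exact hb T' hT (Or.inr ⟨c, hc, Or.inr k1⟩)
  have h3 : onC Ts m c := ⟨T, hT, Or.inl hc⟩
  have h4 : aC Ts m χ c ↔ ∃ a ∈ [T.a₁, T.a₂], m a ∈ [T.c₁, T.c₂] := by
    constructor
    · rintro ⟨T', hT', h3, h4⟩
      have : T' = T := h.uniq hT hT' (by rw [h3, hcl])
      subst this
      exact h4
    · intro h4
      exact ⟨T, hT, hcl.symm, h4⟩
  unfold nc
  by_cases h5 : onA Ts m c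
  · rw [if_pos h5, hcl, if_pos ⟨m c, h1 h5, by rw [e1]; exact hc⟩]
  · rw [if_neg h5, if_neg h2, if_pos h3, hcl]
    simp only [h4]

end

end Pool.Agent.R800.BT
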