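import Pool.Agent.R800.BT.Step
import Pool.Agent.Y468.SR.Iso

/-! Renaming by an injective map. -/

namespace Pool.Agent.R800.BT

open Pool.Agent.Y468.SR
open Pool.Agent.Y874.TP

theorem classical_renamed {f : ℕ → ℕ} (hf : Function.Injective f) {D : Code} (h : Classical D) :
    Classical (renamed f D) := by
  refine ⟨?_, fun back front h1 h2 => ?_⟩
  · rw [wf_iff, passes_renamed]
    exact WF.ren (wf_iff.1 h.1) fun p _ q _ h => hf h
  · obtain ⟨g, hg⟩ := hf.hasLeftInverse
    obtain ⟨u, h3, h4⟩ := h.2 (fun p => back (ren f p)) (fun p => front (ren f p)) (by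
      intro C hC
      obtain ⟨s, hs⟩ := h1 (C.1.map (ren f), C.2) (by
        rw [renamed_def]; exact List.mem_map.2 ⟨C, hC, rfl⟩)
      exact ⟨s, run_map.1 hs⟩) (by
      intro p hp
      exact h2 (ren f p) (by rw [passes_renamed]; exact List.mem_map_of_mem hp))
    refine ⟨fun x => u (g x.1, x.2), ?_, ?_⟩
    · intro C' hC'
      rw [renamed_def] at hC'
      obtain ⟨C, hC, rfl⟩ := List.mem_map.1 hC'
      obtain ⟨s, hs⟩ := h3 C hC
      refine ⟨s, run_map.2 ?_⟩
      simp only [corner_ren, hg _]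
      exact hs
    · intro p hp
      rw [passes_renamed] at hp
      obtain ⟨q, hq, rfl⟩ := List.mem_map.1 hp
      simp only [corner_ren, hg _]
      exact h4 q hq

theorem vals_renamed {G : Type} [Group G] (o u : ℕ → G) (f : ℕ → ℕ) (E : Code) :
    vals o u (renamed f E) = vals (fun c => o (f c)) (fun c => u (f c)) E := by
  unfold vals
  rw [renamed_def, List.map_map]
  refine List.map_congr_left fun C _ => ?_
  refine Prod.ext ?_ rfl
  simp only [Function.comp]
  generalize C.1 = w
  induction w with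
  | nil => rfl
  | cons r w ih =>
    rw [List.map_cons, wval_cons, wval_cons, ih]
    rfl

/-- the matching of a renamed diagram -/
theorem inv_renamed {f g m : ℕ → ℕ} {E : Code} (hg : ∀ c, g (f c) = c) (hm : Matching (passes E) m)
    (hn : NullV E m) : Matching (passes (renamed f E)) (fun c => f (m (g c))) ∧
      NullV (renamed f E) (fun c => f (m (g c))) := by
  have hinj : ∀ a b, f a = f b → a = b := fun a b h => by rw [← hg a, ← hg b, h]
  constructor
  · intro p' hp'
    obtain ⟨p, hp, rfl⟩ := mem_renamed.1 hp'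
    obtain ⟨q, hq, h1, h2, h3⟩ := hm p hp
    refine ⟨⟨f q.crossing, q.isOver, q.isPos⟩, mem_renamed.2 ⟨q, hq, rfl⟩, ?_, ?_, fun h => ?_⟩
    · simp only [hg, h1]
    · simp only [hg, h2]
    · exact h3 fun h' => h (by simp only [h'])
  · intro G _ o u hv b
    rw [vals_renamed]
    refine hn G _ _ (fun p hp => ?_) b
    obtain ⟨k1, k2⟩ := hv ⟨f p.crossing, p.isOver, p.isPos⟩ (mem_renamed.2 ⟨p, hp, rfl⟩)
    simp only [hg] at k1 k2
    exact ⟨fun h => k1 (by rw [h]), fun h => k2 fun h' => h (hinj _ _ h')⟩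

end Pool.Agent.R800.BT
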