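import Pool.Agent.R800.BT.Code

/-! Removing all the triple points which can be removed. -/

namespace Pool.Agent.R800.BT

open Pool.Agent.Y468.SR
open Pool.Agent.Y874.TP

theorem nullV_of {E E' : Code} {m : ℕ → ℕ} (hP : ∀ r, r ∈ passes E' ↔ r ∈ passes E)
    (hC : ∀ (G : Type) [Group G] (o u : ℕ → G), (∀ b, CN (bv (vals o u E') b)) →
      ∀ b, CN (bv (vals o u E) b)) (h : NullV E' m) : NullV E m :=
  fun G _ o u hv => hC G o u (h G o u (valid_congr (fun r => (hP r).symm) hv))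

theorem nullV_perm {E E' : Code} {m : ℕ → ℕ} (h : E.Perm E') (hi : NullV E m) : NullV E' m := by
  refine nullV_of (fun r => ?_) (fun G _ o u hn b => ?_) hi
  · exact (passes_perm h).mem_iff
  · exact (hn b).perm (bv_perm (h.map _) b)

/-- the invariant without colours, `χ` being constant on classes -/
structure Sv (E : Code) (χ m : ℕ → ℕ) : Prop where
  wf : WF (passes E)
  mt : Matching (passes E) m
  nv : NullV E m
  cm : ∀ p ∈ passes E, χ (m p.crossing) = χ p.crossing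

variable {m χ : ℕ → ℕ}

theorem Sv.perm {E E' : Code} (h : E.Perm E') (hi : Sv E χ m) : Sv E' χ m where
  wf := WF.perm (passes_perm h) hi.wf
  mt := matching_congr (fun _ => (passes_perm h).mem_iff) hi.mt
  nv := nullV_perm h hi.nv
  cm := fun p hp => hi.cm p ((passes_perm h).mem_iff.2 hp)

theorem Sv.ceq {E E' O : Code} (h : CEq E E') (hi : Sv (E ++ O) χ m) : Sv (E' ++ O) χ m := by
  have hmem : ∀ r, r ∈ passes (E ++ O) ↔ r ∈ passes (E' ++ O) := by
    intro r
    simp only [passes_append', List.mem_append, h.1 r]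
  refine ⟨?_, matching_congr hmem hi.mt, nullV_of hmem (fun G _ o u hn b => ?_) hi.nv,
    fun p hp => hi.cm p ((hmem p).2 hp)⟩
  · refine WF.perm ?_ hi.wf
    simp only [passes_append']
    exact h.2.1.append_right _
  · have := hn b
    rw [vals_append, bv_append] at this ⊢
    exact h.2.2 G o u b _ this

/-- the triple point can be removed -/
def Bad (T : Tri) (m : ℕ → ℕ) : Prop :=
  (∃ x ∈ [T.a₁, T.a₂], m x = x ∨ m x ∈ [T.b₁, T.b₂]) ∨
    ∃ z ∈ [T.c₁, T.c₂], m z = z ∨ m z ∈ [T.b₁, T.b₂]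

theorem bad_swapA {T : Tri} (h : Bad T m) : Bad T.swapA m := by
  rcases h with ⟨x, hx, h⟩ | ⟨z, hz, h⟩
  · refine Or.inl ⟨x, ?_, h⟩
    simp only [Tri.swapA, List.mem_cons, List.not_mem_nil, or_false] at hx ⊢
    tauto
  · exact Or.inr ⟨z, hz, h⟩

theorem bad_swapB {T : Tri} (h : Bad T m) : Bad T.swapB m := by
  rcases h with ⟨x, hx, h⟩ | ⟨z, hz, h⟩
  · refine Or.inl ⟨x, hx, ?_⟩
    simp only [Tri.swapB, List.mem_cons, List.not_mem_nil, or_false] at h ⊢
    tauto
  · refine Or.inr ⟨z, hz, ?_⟩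
    simp only [Tri.swapB, List.mem_cons, List.not_mem_nil, or_false] at h ⊢
    tauto

/-- the heights of the strands are the standard ones -/
def Hts (T : Tri) : Prop := T.ta = true ∧ T.tb = true ∧ T.tc = true

/-- the names have one class -/
def Mono (χ : ℕ → ℕ) (T : Tri) : Prop := ∀ c ∈ T.names, ∀ d ∈ T.names, χ c = χ d

theorem mono_swapA {T : Tri} (h : Mono χ T) : Mono χ T.swapA := by
  intro c hc d hd
  refine h c ?_ d ?_
  · simp only [Tri.names, Tri.swapA, List.mem_cons, List.not_mem_nil, or_false] at hc ⊢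
    tauto
  · simp only [Tri.names, Tri.swapA, List.mem_cons, List.not_mem_nil, or_false] at hd ⊢
    tauto

theorem mono_swapB {T : Tri} (h : Mono χ T) : Mono χ T.swapB := by
  intro c hc d hd
  refine h c ?_ d ?_
  · simp only [Tri.names, Tri.swapB, List.mem_cons, List.not_mem_nil, or_false] at hc ⊢
    tauto
  · simp only [Tri.names, Tri.swapB, List.mem_cons, List.not_mem_nil, or_false] at hd ⊢
    tauto

theorem ok_signs {T : Tri} (hok : T.Ok) (ht : Hts T) {e : Bool} (he : T.ei = e ∧ T.ej = e ∧ T.ek = e) :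
    T.sb = T.sa ∧ T.sc = T.sa := by
  obtain ⟨a₁, a₂, b₁, b₂, c₁, c₂, ta, tb, tc, sa, sb, sc, ei, ej, ek, li, lj, lk⟩ := T
  simp only [Tri.Ok, Hts] at hok ht he ⊢
  obtain ⟨rfl, rfl, rfl⟩ := ht
  rw [he.1, he.2.1, he.2.2] at hok
  revert hok
  clear he li lj lk ei ej ek
  revert sa sb sc e; decide

theorem dat {T : Tri} {E : Code} {σ : ℕ → Bool} {e : Bool} (h : Sv (T.code ++ E) χ m)
    (hσ : ∀ p ∈ passes (T.code ++ E), σ p.crossing = p.isPos) (hok : T.Ok) (ht : Hts T)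
    (he : T.ei = e ∧ T.ej = e ∧ T.ek = e) (hmo : Mono χ T) :
    Dat (Cr (passes (T.code ++ E))) m σ χ T.a₁ T.a₂ T.b₁ T.b₂ T.c₁ T.c₂ := by
  obtain ⟨s1, s2⟩ := ok_signs hok ht he
  have hmem : ∀ p ∈ passes T.code, p ∈ passes (T.code ++ E) := by
    intro p hp; rw [passes_append']; simp [hp]
  have m1 := hmem T.pa₁ (by rw [mem_code]; simp)
  have m2 := hmem T.pa₂ (by rw [mem_code]; simp)
  have m3 := hmem T.pb₁ (by rw [mem_code]; simp)
  have m4 := hmem T.pb₂ (by rw [mem_code]; simp)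
  have m5 := hmem T.pc₁ (by rw [mem_code]; simp)
  have m6 := hmem T.pc₂ (by rw [mem_code]; simp)
  have v1 : σ T.a₁ = !T.sa := hσ _ m1
  have v2 : σ T.a₂ = T.sa := hσ _ m2
  have v3 : σ T.b₁ = !T.sb := hσ _ m3
  have v4 : σ T.b₂ = T.sb := hσ _ m4
  have v5 : σ T.c₁ = !T.sc := hσ _ m5
  have v6 : σ T.c₂ = T.sc := hσ _ m6
  refine ⟨mt_of hσ h.mt h.cm, names_nodup ?_ ht, ⟨_, m1, rfl⟩, ⟨_, m2, rfl⟩, ⟨_, m3, rfl⟩,
    ⟨_, m4, rfl⟩, ⟨_, m5, rfl⟩, ⟨_, m6, rfl⟩, ?_, ?_, ?_, ?_, ?_, ?_, ?_, ?_, ?_, ?_⟩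
  · have := h.wf.2
    rw [passes_append', List.map_append] at this
    exact (List.nodup_append.1 this).1
  · rw [v2, v1, Bool.not_not]
  · rw [v3, v1, s1]
  · rw [v4, v1, s1, Bool.not_not]
  · rw [v5, v1, s2]
  · rw [v6, v1, s2, Bool.not_not]
  all_goals exact hmo _ (by simp [Tri.names]) _ (by simp [Tri.names])

theorem rem_of_bad {T : Tri} {E : Code} {σ : ℕ → Bool} {e : Bool}
    (h : Dat (Cr (passes (T.code ++ E))) m σ χ T.a₁ T.a₂ T.b₁ T.b₂ T.c₁ T.c₂) (hb : Bad T m) :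
    Rem (Cr (passes (T.code ++ E))) m σ χ e T.a₁ T.a₂ T.b₁ T.b₂ T.c₁ T.c₂ := by
  have hs : ∀ c ∈ Cr (passes (T.code ++ E)), ∀ d, m c = d → d ≠ c → σ d = σ c → False := by
    intro c hc d h1 h2 h3
    have h4 := (h.mt c hc).2.2.1 (by rw [h1]; exact h2)
    rw [h1, h3] at h4
    cases h5 : σ c <;> rw [h5] at h4 <;> simp at h4
  have hnd := h.nd
  simp only [List.nodup_cons, List.mem_cons, List.not_mem_nil, or_false, not_or,
    not_false_eq_true, List.nodup_nil, and_true] at hnd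
  obtain ⟨⟨a1, a2, a3, a4, a5⟩, ⟨b1, b2, b3, b4⟩, ⟨c1, c2, c3⟩, ⟨d1, d2⟩, e1⟩ := hnd
  rcases hb with ⟨x, hx, hb⟩ | ⟨z, hz, hb⟩
  · simp only [List.mem_cons, List.not_mem_nil, or_false] at hx hb
    rcases hx with rfl | rfl
    · rcases hb with hb | hb | hb
      · exact fam1 h hb
      · exact (hs _ h.mx _ hb (Ne.symm a2) h.sy).elim
      · exact fam5 h hb
    · rcases hb with hb | hb | hb
      · exact Rem.swap (fam1 h.swap hb)
      · exact Rem.swap (fam5 h.swap hb)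
      · exact (hs _ h.mx' _ hb (Ne.symm b2) (by rw [h.sy', h.sx])).elim
  · simp only [List.mem_cons, List.not_mem_nil, or_false] at hz hb
    rcases hz with rfl | rfl
    · rcases hb with hb | hb | hb
      · exact fam3 h hb
      · exact (hs _ h.mz _ hb c2 (by rw [h.sy, h.sz])).elim
      · have : m T.b₂ = T.c₁ := by rw [← hb]; exact (h.mt _ h.mz).2.1
        exact Rem.swap (fam7 h.swap this)
    · rcases hb with hb | hb | hb
      · exact Rem.swap (fam3 h.swap hb)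
      · have : m T.b₁ = T.c₂ := by rw [← hb]; exact (h.mt _ h.mz').2.1
        exact fam7 h this
      · exact (hs _ h.mz' _ hb d2 (by rw [h.sy', h.sz'])).elim

theorem drop_norm {T : Tri} {E : Code} {e : Bool} (h : Sv (T.code ++ E) χ m) (hok : T.Ok)
    (ht : Hts T) (he : T.ei = e ∧ T.ej = e ∧ T.ek = e) (hmo : Mono χ T) (hb : Bad T m) :
    ∃ m', Sv E χ m' := by
  obtain ⟨σ, hσ⟩ := exists_sign h.wf
  obtain ⟨m', h1, h2, h3⟩ := remove h.wf hσ h.nv ht he (rem_of_bad (e := e) (dat h hσ hok ht he hmo) hb)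
  refine ⟨m', ?_, h1, h2, h3⟩
  have := h.wf
  rw [passes_append'] at this
  exact this.remove fun p hp => mate_code hp

/-- a bad triple point can be removed -/
theorem drop {T : Tri} {E : Code} (h : Sv (T.code ++ E) χ m) (hok : T.Ok)
    (ht : Hts T) (hmo : Mono χ T) (hb : Bad T m) : ∃ m', Sv E χ m' := by
  have hA := Tri.tr_swapA T
  have hB := Tri.tr_swapB T
  have hAB := Tri.tr_swapB T.swapA
  by_cases h1 : T.ei = T.ej
  · by_cases h2 : T.ek = T.ei
    · exact drop_norm (e := T.ei) h hok ht ⟨rfl, h1.symm, h2⟩ hmo hb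
    · refine drop_norm (e := T.ek) (h.ceq hA.ceq) (hA.ok hok) ht ?_ (mono_swapA hmo) (bad_swapA hb)
      refine ⟨?_, ?_, rfl⟩ <;> simp only [Tri.swapA]
      · cases h3 : T.ek <;> cases h4 : T.ei <;> simp_all
      · cases h3 : T.ek <;> cases h4 : T.ej <;> simp_all
  · by_cases h2 : T.ek = T.ei
    · refine drop_norm (e := T.ej) (h.ceq hB.ceq) (hB.ok hok) ht ?_ (mono_swapB hmo) (bad_swapB hb)
      refine ⟨?_, rfl, ?_⟩ <;> simp only [Tri.swapB]
      · cases h3 : T.ei <;> cases h4 : T.ej <;> simp_all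
      · cases h3 : T.ei <;> cases h4 : T.ej <;> simp_all
    · refine drop_norm (e := T.ei) ((h.ceq hA.ceq).ceq hAB.ceq) (hAB.ok (hA.ok hok)) ht ?_
        (mono_swapB (mono_swapA hmo)) (bad_swapB (bad_swapA hb))
      simp only [Tri.swapA, Tri.swapB]
      refine ⟨?_, ?_, ?_⟩
      · cases h3 : T.ei <;> rfl
      · cases h3 : T.ei <;> cases h4 : T.ej <;> simp_all
      · cases h3 : T.ei <;> cases h4 : T.ek <;> simp_all

/-- the invariant without colours of a diagram with triple points -/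
structure Iv (D : Code) (Ts : List Tri) (χ m : ℕ → ℕ) : Prop where
  sv : Sv (D ++ TC Ts) χ m
  ok : ∀ T ∈ Ts, T.Ok ∧ Hts T ∧ Mono χ T
  nd : (Ts.map fun T => χ T.a₁).Nodup

theorem perm_TC {D : Code} {l₁ l₂ : List Tri} {T : Tri} :
    (D ++ TC (l₁ ++ T :: l₂)).Perm (T.code ++ (D ++ TC (l₁ ++ l₂))) := by
  simp only [TC, List.flatMap_append, List.flatMap_cons]
  exact (List.Perm.append_left _ (List.perm_append_comm_assoc _ _ _)).trans
    (List.perm_append_comm_assoc _ _ _)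

theorem Iv.drop {D : Code} {l₁ l₂ : List Tri} {T : Tri} (h : Iv D (l₁ ++ T :: l₂) χ m)
    (hb : Bad T m) : ∃ m', Iv D (l₁ ++ l₂) χ m' := by
  obtain ⟨hok, ht, hmo⟩ := h.ok T (by simp)
  obtain ⟨m', hm'⟩ := BT.drop (h.sv.perm perm_TC) hok ht hmo hb
  refine ⟨m', hm', fun T' hT' => h.ok T' ?_, ?_⟩
  · rcases List.mem_append.1 hT' with h | h <;> simp [h]
  · refine h.nd.sublist ?_
    rw [List.map_append, List.map_append, List.map_cons]
    exact List.Sublist.append (List.Sublist.refl _) (List.sublist_cons_self _ _)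

/-- all bad triple points can be removed -/
theorem exists_good {D : Code} : ∀ (n : ℕ) (Ts : List Tri) (m : ℕ → ℕ), Ts.length = n →
    Iv D Ts χ m → ∃ Ts' m', Iv D Ts' χ m' ∧ ∀ T ∈ Ts', ¬Bad T m' := by
  intro n
  induction n with
  | zero =>
    intro Ts m h1 h
    have : Ts = [] := List.eq_nil_of_length_eq_zero h1
    subst this
    exact ⟨[], m, h, by simp⟩
  | succ n ih =>
    intro Ts m h1 h
    by_cases hb : ∃ T ∈ Ts, Bad T m
    · obtain ⟨T, hT, hb⟩ := hb
      obtain ⟨l₁, l₂, rfl⟩ := List.append_of_mem hT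
      obtain ⟨m', hm'⟩ := h.drop hb
      refine ih _ m' ?_ hm'
      simp only [List.length_append, List.length_cons] at h1 ⊢
      omega
    · push Not at hb
      exact ⟨Ts, m, h, hb⟩

end Pool.Agent.R800.BT
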